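import Mathlib
import Pool.Agent.Lib.helper13.Mult

set_option autoImplicit false

namespace Pool.Agent.Results.MP_f79668_an.Counter

open Polynomial Finset Filter Topology H13Mult Pool.Agent.Lib.H13Zc

/-- All complex zeros of `p` are real. -/
def RealZeros (p : ℝ[X]) : Prop := ∀ z : ℂ, aeval z p = 0 → z.im = 0

noncomputable def B : ℕ → ℝ[X]
  | 0 => 1
  | 1 => X
  | k + 2 => 2 * X * B (k + 1) + B k

theorem B_deg : ∀ k, (B k).natDegree ≤ k ∧ 0 < (B k).coeff k
  | 0 => by simp [B]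
  | 1 => by simp [B]
  | k + 2 => by
    have h0 := B_deg k
    have h1 := B_deg (k + 1)
    have e : B (k + 2) = C 2 * (X * B (k + 1)) + B k := by rw [B, mul_assoc]; rfl
    rw [e]
    constructor
    · refine natDegree_add_le_of_degree_le ((natDegree_C_mul_le _ _).trans
        (natDegree_mul_le.trans ?_)) (by omega)
      rw [natDegree_X]; omega
    · rw [coeff_add, coeff_C_mul, coeff_X_mul, coeff_eq_zero_of_natDegree_lt (p := B k) (by omega)]
      linarith [h1.2]

theorem B_degree (k : ℕ) : (B k).degree = k :=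
  degree_eq_of_le_of_coeff_ne_zero (degree_le_of_natDegree_le (B_deg k).1) (B_deg k).2.ne'

theorem B_eval (z : ℂ) (hz : z ≠ 0) : ∀ k, 2 * aeval ((z - z⁻¹) / 2) (B k) = z ^ k + (-z⁻¹) ^ k
  | 0 => by simp [B]; norm_num
  | 1 => by simp [B]; ring
  | k + 2 => by
    have h0 := B_eval z hz k
    have h1 := B_eval z hz (k + 1)
    have h2 : z * z⁻¹ = 1 := mul_inv_cancel₀ hz
    rw [B, map_add, map_mul, map_mul, aeval_X, map_ofNat]
    linear_combination h0 + (z - z⁻¹) * h1 - (z ^ k + (-z⁻¹) ^ k) * h2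

theorem B_der : ∀ k : ℕ, (X ^ 2 + 1) * derivative (B k) = (k : ℝ[X]) * (B (k + 1) - X * B k)
  | 0 => by simp [B]
  | 1 => by simp [B]; ring
  | k + 2 => by
    have h0 := B_der k
    have h1 := B_der (k + 1)
    rw [show B (k + 2 + 1) = 2 * X * B (k + 2) + B (k + 1) from rfl]
    rw [show B (k + 1 + 1) = 2 * X * B (k + 1) + B k from rfl] at h1
    rw [show B (k + 2) = 2 * X * B (k + 1) + B k from rfl]
    simp only [derivative_add, derivative_mul, derivative_X, derivative_ofNat]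
    push_cast at h1 ⊢
    linear_combination h0 + 2 * X * h1

theorem B_ode (k : ℕ) : (X ^ 2 + 1) * derivative (derivative (B k)) + X * derivative (B k) =
    (k : ℝ[X]) ^ 2 * B k := by
  have h0 := B_der k
  have h1 := B_der (k + 1)
  have h2 := congrArg derivative h0
  rw [show B (k + 1 + 1) = 2 * X * B (k + 1) + B k from rfl] at h1
  simp only [derivative_add, derivative_mul, derivative_X, derivative_sub, derivative_natCast,
    derivative_one, derivative_X_pow, map_natCast] at h2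
  have hne : (X ^ 2 + 1 : ℝ[X]) ≠ 0 := fun h => by simpa using congrArg (eval 0) h
  apply mul_left_cancel₀ hne
  push_cast at h1 h2
  linear_combination (X ^ 2 + 1) * h2 + (k : ℝ[X]) * h1 - ((k : ℝ[X]) + 1) * X * h0

noncomputable def S : Polynomial.Sequence ℝ := ⟨B, B_degree⟩

theorem S_unit (i : ℕ) : IsUnit (S i).leadingCoeff :=
  (leadingCoeff_ne_zero.2 (S.ne_zero i)).isUnit

noncomputable def T (γ : ℕ → ℝ) : ℝ[X] →ₗ[ℝ] ℝ[X] :=
  (S.basis S_unit).constr ℝ fun k => C (γ k) * B k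

theorem T_B (γ : ℕ → ℝ) (k : ℕ) : T γ (B k) = C (γ k) * B k := by
  have := (S.basis S_unit).constr_basis ℝ (fun k => C (γ k) * B k) k
  rwa [S.basis_eq_self] at this

noncomputable def Q (L : ℝ[X] →ₗ[ℝ] ℝ[X]) (n : ℕ) : ℝ[X] :=
  C (1 / (n.factorial : ℝ)) * (L (X ^ n) - ∑ k : Fin n, Q L k * derivative^[k] (X ^ n))
decreasing_by exact k.2

theorem repr_pow (L : ℝ[X] →ₗ[ℝ] ℝ[X]) (n N : ℕ) (h : n < N) :
    L (X ^ n) = ∑ k ∈ range N, Q L k * derivative^[k] (X ^ n) := by
  rw [← sum_subset (range_subset_range.2 (show n + 1 ≤ N from h)) fun k _ hk => by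
    rw [iterate_derivative_eq_zero (by simpa using hk), mul_zero]]
  rw [sum_range_succ, Q, Fin.sum_univ_eq_sum_range (fun k => Q L k * derivative^[k] (X ^ n)),
    iterate_derivative_X_pow_eq_C_mul n n, Nat.descFactorial_self, Nat.sub_self, pow_zero]
  have : C (1 / (n.factorial : ℝ)) * C (n.factorial : ℝ) = 1 := by
    rw [← C_mul, one_div_mul_cancel (by exact_mod_cast n.factorial_ne_zero), C_1]
  linear_combination (-(L (X ^ n) - ∑ k ∈ range n, Q L k * derivative^[k] (X ^ n))) * this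

theorem repr (L : ℝ[X] →ₗ[ℝ] ℝ[X]) (f : ℝ[X]) :
    L f = ∑ k ∈ range (f.natDegree + 1), Q L k * derivative^[k] f := by
  have e := f.as_sum_range_C_mul_X_pow
  generalize f.natDegree + 1 = N at e ⊢
  generalize f.coeff = c at e
  subst e
  simp only [map_sum, iterate_derivative_sum, mul_sum, iterate_derivative_C_mul]
  rw [sum_comm]
  refine sum_congr rfl fun n hn => ?_
  rw [← smul_eq_C_mul, map_smul, repr_pow L n N (mem_range.1 hn), smul_sum]
  exact sum_congr rfl fun k _ => by rw [smul_eq_C_mul]; ring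

theorem top (γ : ℕ → ℝ) (n : ℕ) : (T γ (X ^ n)).coeff n = γ n := by
  have h : ∀ f ∈ Submodule.span ℝ (S '' Set.Iio (n + 1)), (T γ f).coeff n = γ n * f.coeff n := by
    intro f hf
    induction hf using Submodule.span_induction with
    | mem f hf =>
      obtain ⟨i, hi, rfl⟩ := hf
      change (T γ (B i)).coeff n = γ n * (B i).coeff n
      rw [T_B, coeff_C_mul]
      rcases (Nat.lt_succ_iff.1 hi).eq_or_lt with rfl | hi
      · rfl
      · rw [coeff_eq_zero_of_natDegree_lt ((B_deg i).1.trans_lt hi), mul_zero, mul_zero]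
    | zero => simp
    | add f g _ _ h1 h2 => rw [map_add, coeff_add, coeff_add, h1, h2, mul_add]
    | smul c f _ h1 => rw [map_smul, coeff_smul, coeff_smul, h1, smul_eq_mul, smul_eq_mul]; ring
  rw [S.span_degreeLT fun i _ => S_unit i] at h
  simpa using h (X ^ n) (by rw [mem_degreeLT, degree_X_pow]; exact_mod_cast n.lt_succ_self)

theorem infinite (γ : ℕ → ℝ) (h1 : ∀ k, |γ k| ≤ 1) (h2 : γ 0 ≠ γ 1) :
    {k | Q (T γ) k ≠ 0}.Infinite := by
  intro hfin
  obtain ⟨K, hK⟩ := hfin.bddAbove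
  let g : ℝ[X] := ∑ k ∈ range (K + 1), C ((Q (T γ) k).coeff k) * descPochhammer ℝ k
  have hg : ∀ n : ℕ, g.eval (n : ℝ) = γ n := by
    intro n
    rw [← top γ n, repr_pow _ n (n + K + 1) (by omega), ← sum_subset
      (range_subset_range.2 (show K + 1 ≤ n + K + 1 by omega)) fun k _ hk => by
        rw [show Q (T γ) k = 0 from by_contra fun h => hk (by simpa [Nat.lt_succ_iff] using hK h),
          zero_mul]]
    rw [eval_finsetSum, finsetSum_coeff]
    refine sum_congr rfl fun k _ => ?_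
    rw [eval_mul, eval_C, descPochhammer_eval_eq_descFactorial, iterate_derivative_X_pow_eq_C_mul,
      mul_left_comm, coeff_C_mul, mul_comm]
    rcases le_or_gt k n with h | h
    · rw [coeff_mul_X_pow', if_pos (by omega), show n - (n - k) = k by omega]
    · rw [Nat.descFactorial_eq_zero_iff_lt.2 h]; simp
  by_cases hd : 0 < g.degree
  · have := ((abs_tendsto_atTop g hd).comp tendsto_natCast_atTop_atTop).eventually_gt_atTop 1
    obtain ⟨n, hn⟩ := this.exists
    simp only [Function.comp, hg] at hn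
    linarith [h1 n]
  · have := eq_C_of_degree_le_zero (not_lt.1 hd)
    apply h2
    rw [← hg, ← hg, this, eval_C, eval_C]

noncomputable def F (N : ℕ) (c : ℕ → ℝ) : ℝ[X] :=
  ∑ k ∈ range N, (monomial (N + k) (c k) + monomial (N - k) ((-1) ^ k * c k))

theorem F_eval (N : ℕ) (c : ℕ → ℝ) (z : ℂ) (hz : z ≠ 0) : aeval z (F N c) =
    2 * z ^ N * aeval ((z - z⁻¹) / 2) (∑ k ∈ range N, C (c k) * B k) := by
  rw [F, map_sum, map_sum, mul_sum]
  refine sum_congr rfl fun k hk => ?_
  have h := B_eval z hz k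
  have h2 : z ^ (N - k) = z ^ N * z⁻¹ ^ k := by
    rw [pow_sub₀ z hz (mem_range.1 hk).le, inv_pow]
  simp only [map_add, aeval_monomial, map_mul, aeval_C, map_pow, map_neg, map_one, h2]
  rw [neg_pow] at h
  linear_combination (-(algebraMap ℝ ℂ (c k)) * z ^ N) * h

theorem act_F (N : ℕ) (c g γ : ℕ → ℝ) (h1 : ∀ k, g (N + k) = γ k)
    (h2 : ∀ k < N, g (N - k) = γ k) : act g (F N c) = F N fun k => γ k * c k := by
  ext j
  rw [coeff_act, F, F, finsetSum_coeff, finsetSum_coeff, mul_sum]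
  refine sum_congr rfl fun k hk => ?_
  simp only [coeff_add, coeff_monomial, mul_add]
  congr 1
  · split_ifs with h
    · rw [← h, h1]
    · rw [mul_zero]
  · split_ifs with h
    · rw [← h, h2 k (mem_range.1 hk)]; ring
    · rw [mul_zero]

theorem preserves (t : ℝ) (ht : 0 < t) (p : ℝ[X]) (hp : RealZeros p) :
    RealZeros (T (fun k => Real.exp (-(t * (k : ℝ) ^ 2))) p) := by
  obtain ⟨N, hN⟩ := (S.basis S_unit).repr p |>.support.exists_nat_subset_range
  set c := (S.basis S_unit).repr p with hc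
  have e : p = ∑ k ∈ range N, C (c k) * B k := by
    conv_lhs => rw [← (S.basis S_unit).linearCombination_repr p, Finsupp.linearCombination_apply,
      Finsupp.sum_of_support_subset _ hN _ (by simp)]
    exact sum_congr rfl fun k _ => by rw [S.basis_eq_self, smul_eq_C_mul]; rfl
  have h1 : RR (F N c) := by
    intro z hz
    by_cases h0 : z = 0
    · simp [h0]
    rw [F_eval N c z h0, ← e] at hz
    have := hp _ ((mul_eq_zero.1 hz).resolve_left (mul_ne_zero two_ne_zero (pow_ne_zero _ h0)))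
    simp only [Complex.div_ofNat_im, Complex.sub_im, Complex.inv_im] at this
    have h3 := Complex.normSq_pos.2 h0
    have h4 : z.im * (Complex.normSq z + 1) = 0 := by
      field_simp at this; linarith
    exact (mul_eq_zero.1 h4).resolve_right (by positivity)
  have h2 := gauss h1 N (by
    refine natDegree_sum_le_of_forall_le _ _ fun k hk => natDegree_add_le_of_degree_le
      ((natDegree_monomial_le _).trans ?_) ((natDegree_monomial_le _).trans ?_)
    · have := mem_range.1 hk; omega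
    · omega) ht
  rw [act_F N c _ (fun k => Real.exp (-(t * (k : ℝ) ^ 2))) (fun k => by push_cast; ring_nf)
    (fun k hk => by rw [Nat.cast_sub hk.le]; ring_nf)] at h2
  intro x hx
  obtain ⟨s, hs⟩ := IsAlgClosed.exists_pow_nat_eq (x ^ 2 + 1) two_pos
  have h3 : (x + s) * (s - x) = 1 := by linear_combination hs
  have h0 : x + s ≠ 0 := left_ne_zero_of_mul_eq_one h3
  have h4 : ((x + s) - (x + s)⁻¹) / 2 = x := by rw [inv_eq_of_mul_eq_one_right h3]; ring
  have h5 := h2 (x + s) (by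
    rw [F_eval _ _ _ h0, h4]
    have : ∑ k ∈ range N, C (Real.exp (-(t * (k : ℝ) ^ 2)) * c k) * B k =
        T (fun k => Real.exp (-(t * (k : ℝ) ^ 2))) p := by
      conv_rhs => rw [e, map_sum]
      exact sum_congr rfl fun k _ => by
        rw [← smul_eq_C_mul (p := B k) (c k), map_smul, T_B, smul_eq_C_mul, C_mul]; ring
    rw [this, hx, mul_zero])
  rw [← h4]
  simp only [Complex.div_ofNat_im, Complex.sub_im, Complex.inv_im, h5]
  simp

theorem exists_q : ∃ q : ℝ, 0 < q ∧ q < 1 ∧ q ^ 3 + q ^ 2 + q - 1 = 0 := by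
  obtain ⟨q, hq, h⟩ := intermediate_value_Ioo (zero_le_one' ℝ)
    (f := fun q : ℝ => q ^ 3 + q ^ 2 + q - 1) (by fun_prop) (show (0 : ℝ) ∈ _ by norm_num)
  exact ⟨q, hq.1, hq.2, h⟩

theorem result : ∃ (B : ℕ → ℝ[X]) (M : ℕ) (a : ℕ → ℝ[X]) (a₀ γ : ℕ → ℝ)
    (T : ℝ[X] →ₗ[ℝ] ℝ[X]) (Q : ℕ → ℝ[X]),
    (∀ k, (B k).degree = k) ∧ 1 ≤ M ∧ a M ≠ 0 ∧
    (∀ k, C (a₀ k) * B k + ∑ j ∈ Icc 1 M, a j * derivative^[j] (B k) = 0) ∧
    (∀ f, T f = ∑ k ∈ range (f.natDegree + 1), Q k * derivative^[k] f) ∧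
    {k | Q k ≠ 0}.Infinite ∧ (∀ p, RealZeros p → RealZeros (T p)) ∧
    (∀ k, T (B k) = C (γ k) * B k) ∧ (∀ k, γ k ≠ 0) ∧
    ∃ k, Q k ≠ 0 ∧ Q (k + 1) ≠ 0 ∧ (Q (k + 1)).degree < (Q k).degree := by
  obtain ⟨q, h0, h1, hq⟩ := exists_q
  have ht : 0 < -Real.log q := neg_pos.2 (Real.log_neg h0 h1)
  set γ : ℕ → ℝ := fun k => Real.exp (-(-Real.log q * (k : ℝ) ^ 2)) with hγ
  have g0 : γ 0 = 1 := by simp [hγ]
  have g1 : γ 1 = q := by simp [hγ, Real.exp_log h0]
  have g2 : γ 2 = q ^ 4 := by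
    rw [← Real.exp_log h0, ← Real.exp_nat_mul]; simp only [hγ]; ring_nf
  have t0 : T γ 1 = 1 := by simpa [B, g0] using T_B γ 0
  have t1 : T γ X = C q * X := by simpa [B, g1] using T_B γ 1
  have t2 : 2 * T γ (X ^ 2) + 1 = C (q ^ 4) * (2 * X ^ 2 + 1) := by
    have := T_B γ 2
    rw [show B 2 = (2 : ℝ) • X ^ 2 + 1 by simp [B, two_smul]; ring, map_add, map_smul, t0,
      g2, two_smul, two_smul] at this
    linear_combination this
  have r0 := repr_pow (T γ) 0 1 (by omega)
  have r1 := repr_pow (T γ) 1 2 (by omega)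
  have r2 := repr_pow (T γ) 2 3 (by omega)
  simp only [sum_range_succ, range_zero, sum_empty, iterate_derivative_X_pow_eq_natCast_mul,
    pow_zero, pow_one, t0, t1] at r0 r1 r2
  norm_num at r0 r1 r2
  have q1 : Q (T γ) 1 = C (q - 1) * X := by
    rw [C_sub, C_1]; linear_combination X * r0 - r1
  have q2 : Q (T γ) 2 = C ((q ^ 4 - 1) / 4) := by
    have e1 : C q ^ 4 - 2 * C q + 1 = (0 : ℝ[X]) := by
      have : q ^ 4 - 2 * q + 1 = 0 := by linear_combination (q - 1) * hq
      simpa [map_ofNat] using congrArg C this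
    have e2 : (4 : ℝ[X]) * C ((q ^ 4 - 1) / 4) = C q ^ 4 - 1 := by
      rw [show (4 : ℝ[X]) = C 4 from rfl, ← C_mul, mul_div_cancel₀ _ (by norm_num)]; simp
    apply mul_left_cancel₀ (show (4 : ℝ[X]) ≠ 0 by norm_num)
    rw [C_pow] at t2
    rw [C_sub, C_1] at q1
    linear_combination t2 - 2 * r2 - e2 + 2 * X ^ 2 * r0 - 4 * X * q1 + 2 * X ^ 2 * e1
  have n1 : q - 1 ≠ 0 := by linarith
  have n2 : (q ^ 4 - 1) / 4 ≠ 0 := by
    have : q ^ 4 < 1 := pow_lt_one₀ h0.le h1 (by norm_num)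
    linarith
  refine ⟨B, 2, fun j => if j = 2 then X ^ 2 + 1 else X, fun k => -(k : ℝ) ^ 2, γ, T γ, Q (T γ),
    B_degree, by norm_num, fun h => by simpa using congrArg (eval 0) h, fun k => ?_, repr _,
    infinite γ (fun k => ?_) (by rw [g0, g1]; exact h1.ne'), preserves _ ht, T_B γ,
    fun k => (Real.exp_pos _).ne', 1, ?_, ?_, ?_⟩
  · rw [show Icc 1 2 = {1, 2} from rfl, sum_pair (by norm_num)]
    simp only [map_neg, map_pow, map_natCast, if_true, Function.iterate_succ,
      Function.iterate_zero, Function.comp, id, show ¬ (1 = 2) by norm_num, if_false]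
    linear_combination B_ode k
  · rw [abs_of_pos (Real.exp_pos _), Real.exp_le_one_iff]
    exact neg_nonpos.2 (by positivity)
  · rw [q1]; exact mul_ne_zero (C_ne_zero.2 n1) X_ne_zero
  · rw [q2]; exact C_ne_zero.2 n2
  · rw [q1, q2, degree_C n2, degree_C_mul_X n1]; exact zero_lt_one

end Pool.Agent.Results.MP_f79668_an.Counter
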